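import Mathlib
import Pool.Agent.W307.LS.Stm
import Pool.Agent.W214.RK.Half

/-!
# The rank of `F4 a b` is at most the rank of `E (4 a) (4 b)`
-/

set_option autoImplicit false

namespace Pool.Agent.W782.LS

open WeierstrassCurve Pool.Agent.W262.SH Pool.Agent.W307.LS

/-- a homomorphism with finite kernel to a finitely generated group -/
theorem fg_rank (M M' : Type) [AddCommGroup M] [AddCommGroup M'] (hM' : AddGroup.FG M')
    (f : M →+ M') (hf : ((f.ker : AddSubgroup M) : Set M).Finite) :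
    AddGroup.FG M ∧ Module.finrank ℤ M ≤ Module.finrank ℤ M' := by
  haveI : Module.Finite ℤ M' := Module.Finite.iff_addGroup_fg.mpr hM'
  haveI : IsNoetherian ℤ M' := inferInstance
  have hker : ((LinearMap.ker f.toIntLinearMap : Submodule ℤ M) : Set M).Finite := by
    refine hf.subset ?_
    intro x hx
    exact hx
  haveI hfin : Finite (LinearMap.ker f.toIntLinearMap) := hker.to_subtype
  have hfg : (⊤ : Submodule ℤ M).FG := by
    refine Submodule.fg_of_fg_map_of_fg_inf_ker f.toIntLinearMap ?_ ?_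
    · exact IsNoetherian.noetherian _
    · rw [top_inf_eq]
      exact Submodule.fg_def.mpr ⟨_, hker, Submodule.span_eq _⟩
  haveI : Module.Finite ℤ M := ⟨hfg⟩
  refine ⟨Module.Finite.iff_addGroup_fg.mp inferInstance, ?_⟩
  have h1 := f.toIntLinearMap.rank_range_add_rank_ker
  have h2 : Module.rank ℤ (LinearMap.ker f.toIntLinearMap) = 0 := by
    rw [rank_eq_zero_iff]
    intro x
    obtain ⟨n, hn, hx⟩ := (isOfFinAddOrder_of_finite x).exists_nsmul_eq_zero
    exact ⟨(n : ℤ), by exact_mod_cast hn.ne', by rw [natCast_zsmul]; exact hx⟩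
  rw [h2, add_zero] at h1
  have h3 : Module.finrank ℤ M = Module.finrank ℤ (LinearMap.range f.toIntLinearMap) := by
    unfold Module.finrank
    rw [h1]
  rw [h3]
  exact Submodule.finrank_le _

theorem rnk_of : Pool.Agent.W307.LS.ISO → Pool.Agent.W307.LS.RNK := by
  intro hI a b ha hb hab
  have haQ : (a : ℚ) ≠ 0 := by exact_mod_cast ha
  have hbQ : (b : ℚ) ≠ 0 := by exact_mod_cast hb
  have habQ : (a : ℚ) - b ≠ 0 := sub_ne_zero.mpr (by exact_mod_cast hab)
  obtain ⟨φ, h1, h2⟩ := hI ℚ (F4 a b).toAffine (E (4 * a) (4 * b)).toAffine rfl rfl rfl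
    (by show ((a : ℚ) - b) ^ 2 ≠ 0; positivity) rfl rfl rfl
    (by show -(((4 * a : ℤ) : ℚ) + ((4 * b : ℤ) : ℚ)) = -2 * (2 * ((a : ℚ) + b)); push_cast; ring)
    (by
      show ((4 * a : ℤ) : ℚ) * ((4 * b : ℤ) : ℚ) =
        (2 * ((a : ℚ) + b)) ^ 2 - 4 * ((a : ℚ) - b) ^ 2
      push_cast; ring)
    (by
      show ((4 * a : ℤ) : ℚ) * ((4 * b : ℤ) : ℚ) ≠ 0
      push_cast
      exact mul_ne_zero (mul_ne_zero (by norm_num) haQ) (mul_ne_zero (by norm_num) hbQ))
  have hE : AddGroup.FG (E (4 * a) (4 * b)).toAffine.Point :=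
    (Pool.Agent.W214.RK.half (4 * a) (4 * b) (mul_ne_zero (by norm_num) ha)
      (mul_ne_zero (by norm_num) hb) (fun h => hab (mul_left_cancel₀ (by norm_num) h))).1
  refine fg_rank _ _ hE φ ?_
  have hsub : ((φ.ker : AddSubgroup _) : Set (F4 a b).toAffine.Point) ⊆
      {0} ∪ {P | ∃ h : (F4 a b).toAffine.Nonsingular 0 0, P = Affine.Point.some 0 0 h} := by
    intro P hP
    rcases P with _ | ⟨x, y, h⟩
    · left; rfl
    · right
      have hx : x = 0 := by
        by_contra hx
        obtain ⟨h', h3⟩ := h1 x y h hx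
        have h4 : φ (Affine.Point.some x y h) = 0 := hP
        rw [h3] at h4
        exact Affine.Point.some_ne_zero h' h4
      subst hx
      have hy : y = 0 := by
        have h5 := (Affine.equation_iff (W := (F4 a b).toAffine) (x := 0) (y := y)).mp h.1
        have h6 : y ^ 2 + 0 * 0 * y + 0 * y = (0 : ℚ) ^ 3 + 2 * ((a : ℚ) + b) * 0 ^ 2 +
          ((a : ℚ) - b) ^ 2 * 0 + 0 := h5
        have h7 : y ^ 2 = 0 := by linear_combination h6
        exact pow_eq_zero_iff (two_ne_zero) |>.mp h7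
      subst hy
      exact ⟨h, rfl⟩
  refine Set.Finite.subset ?_ hsub
  refine (Set.finite_singleton _).union ?_
  by_cases hns : (F4 a b).toAffine.Nonsingular 0 0
  · refine (Set.finite_singleton (Affine.Point.some 0 0 hns)).subset ?_
    rintro P ⟨h, rfl⟩
    rfl
  · refine Set.finite_empty.subset ?_
    rintro P ⟨h, _⟩
    exact hns h

end Pool.Agent.W782.LS
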